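import Pool.Agent.L7h54.GR.Stm

set_option autoImplicit false

/-!
# Project GR: growth rates exist
-/

namespace Pool.Agent.L7h22.GR

open Finset Filter Topology Pool.Agent.L7h54.GR
open scoped Pointwise

variable {G : Type} [Group G]

/-- The letters. -/
def let1 (S : Finset G) : Set G := {s | s ∈ S ∨ s⁻¹ ∈ S}

theorem let1_fin (S : Finset G) : (let1 S).Finite := by
  have h : let1 S = (S : Set G) ∪ (S : Set G)⁻¹ := by
    ext s
    simp [let1]
  rw [h]
  exact S.finite_toSet.union S.finite_toSet.inv

theorem one_mem (S : Finset G) (n : ℕ) : (1 : G) ∈ ball S n :=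
  ⟨[], by simp, by simp, by simp⟩

theorem ball_succ (S : Finset G) (n : ℕ) : ball S (n + 1) ⊆ ball S n ∪ let1 S * ball S n := by
  rintro g ⟨l, hl, hS, rfl⟩
  cases l with
  | nil => exact Or.inl (by simpa using one_mem S n)
  | cons a l =>
    refine Or.inr ⟨a, hS a (by simp), l.prod, ⟨l, by simpa using hl, fun s hs => hS s (by simp [hs]),
      rfl⟩, by simp⟩

theorem ball_fin (S : Finset G) (n : ℕ) : (ball S n).Finite := by
  induction n with
  | zero =>
    refine (Set.finite_singleton (1 : G)).subset ?_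
    rintro g ⟨l, hl, _, rfl⟩
    have : l = [] := List.length_eq_zero_iff.1 (by omega)
    subst this
    simp
  | succ n ih => exact (ih.union ((let1_fin S).mul ih)).subset (ball_succ S n)

theorem ball_add (S : Finset G) (m n : ℕ) : ball S (m + n) ⊆ ball S m * ball S n := by
  rintro g ⟨l, hl, hS, rfl⟩
  refine ⟨(l.take m).prod, ⟨l.take m, by simp, fun s hs => hS s (List.mem_of_mem_take hs), rfl⟩,
    (l.drop m).prod, ⟨l.drop m, by simp; omega, fun s hs => hS s (List.mem_of_mem_drop hs), rfl⟩, ?_⟩
  simp only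
  rw [← List.prod_append, List.take_append_drop]

theorem card_pos (S : Finset G) (n : ℕ) : 1 ≤ Nat.card (ball S n) := by
  have : Finite (ball S n) := ball_fin S n
  have : Nonempty (ball S n) := ⟨⟨1, one_mem S n⟩⟩
  exact Nat.card_pos

theorem card_add (S : Finset G) (m n : ℕ) :
    Nat.card (ball S (m + n)) ≤ Nat.card (ball S m) * Nat.card (ball S n) := by
  refine (Nat.card_mono ((ball_fin S m).mul (ball_fin S n)) (ball_add S m n)).trans ?_
  exact Set.natCard_mul_le

theorem card_pos' (S : Finset G) (n : ℕ) : (1 : ℝ) ≤ Nat.card (ball S n) := by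
  exact_mod_cast card_pos S n

theorem s_FEK : S_FEK := by
  intro G _ S
  refine ⟨ball_fin S, ?_, ?_, ?_⟩
  · -- Fekete
    set u : ℕ → ℝ := fun n => Real.log (Nat.card (ball S n)) with hu
    have hu0 : ∀ n, 0 ≤ u n := fun n => Real.log_nonneg (card_pos' S n)
    have hsub : Subadditive u := by
      intro m n
      have h1 : (Nat.card (ball S (m + n)) : ℝ) ≤ Nat.card (ball S m) * Nat.card (ball S n) := by
        exact_mod_cast card_add S m n
      have h2 := card_pos' S m
      have h3 := card_pos' S n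
      have h4 := card_pos' S (m + n)
      simp only [hu]
      rw [← Real.log_mul (by positivity) (by positivity)]
      exact Real.log_le_log (by linarith) h1
    have hb : BddBelow (Set.range fun n => u n / n) :=
      ⟨0, by rintro _ ⟨n, rfl⟩; exact div_nonneg (hu0 n) (Nat.cast_nonneg _)⟩
    have hlim := hsub.tendsto_lim hb
    refine ⟨Real.exp hsub.lim, ?_, ?_⟩
    · rw [Real.one_le_exp_iff]
      exact ge_of_tendsto' hlim fun n => div_nonneg (hu0 n) (Nat.cast_nonneg _)
    · unfold IsRate
      refine (Real.continuous_exp.tendsto _ |>.comp hlim).congr fun n => ?_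
      have h3 := card_pos' S n
      rw [Function.comp_apply, Real.rpow_def_of_pos (by linarith), div_eq_mul_one_div]
  · rintro e y he hy ⟨C, hC⟩
    have hC0 : 0 < C := by
      have h1 := hC 0
      have h2 := card_pos' S 0
      rw [pow_zero, mul_one] at h1
      linarith
    have h1 : Tendsto (fun n : ℕ => C ^ ((1 : ℝ) / (n : ℝ)) * y) atTop (𝓝 (C ^ (0 : ℝ) * y)) :=
      ((tendsto_const_nhds.rpow tendsto_one_div_atTop_nhds_zero_nat (Or.inl hC0.ne'))).mul_const y
    rw [Real.rpow_zero, one_mul] at h1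
    refine le_of_tendsto_of_tendsto he h1 ?_
    filter_upwards [eventually_gt_atTop 0] with n hn
    have hn0 : (n : ℝ) ≠ 0 := by exact_mod_cast hn.ne'
    have h2 := card_pos' S n
    calc (Nat.card (ball S n) : ℝ) ^ ((1 : ℝ) / (n : ℝ)) ≤ (C * y ^ n) ^ ((1 : ℝ) / (n : ℝ)) :=
          Real.rpow_le_rpow (by linarith) (hC n) (by positivity)
      _ = C ^ ((1 : ℝ) / (n : ℝ)) * y := by
        rw [Real.mul_rpow hC0.le (by positivity), ← Real.rpow_natCast y n, ← Real.rpow_mul hy.le,
          mul_one_div_cancel hn0, Real.rpow_one]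
  · intro e y he hey
    have he0 : 0 ≤ e := ge_of_tendsto' he fun n => Real.rpow_nonneg (Nat.cast_nonneg _) _
    have hy : 0 < y := by linarith
    have h1 := (he.eventually (gt_mem_nhds hey)).and (eventually_gt_atTop 0)
    obtain ⟨N, hN⟩ := eventually_atTop.1 h1
    refine ⟨1 + ∑ m ∈ range N, (Nat.card (ball S m) : ℝ) / y ^ m, fun n => ?_⟩
    have hnn : ∀ m, 0 ≤ (Nat.card (ball S m) : ℝ) / y ^ m := fun m => by positivity
    rcases lt_or_ge n N with h | h
    · have h2 : (Nat.card (ball S n) : ℝ) / y ^ n ≤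
          ∑ m ∈ range N, (Nat.card (ball S m) : ℝ) / y ^ m :=
        Finset.single_le_sum (f := fun m => (Nat.card (ball S m) : ℝ) / y ^ m)
          (fun m _ => hnn m) (mem_range.2 h)
      rw [div_le_iff₀ (by positivity)] at h2
      have h3 : 0 < y ^ n := by positivity
      nlinarith
    · obtain ⟨h2, h3⟩ := hN n h
      have hn0 : (n : ℝ) ≠ 0 := by exact_mod_cast h3.ne'
      have h4 : (Nat.card (ball S n) : ℝ) ≤ y ^ n := by
        have h5 : ((Nat.card (ball S n) : ℝ) ^ ((1 : ℝ) / (n : ℝ))) ^ n ≤ y ^ n :=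
          pow_le_pow_left₀ (Real.rpow_nonneg (Nat.cast_nonneg _) _) h2.le n
        rwa [← Real.rpow_natCast, ← Real.rpow_mul (Nat.cast_nonneg _),
          one_div_mul_cancel hn0, Real.rpow_one] at h5
      have h6 : 0 ≤ ∑ m ∈ range N, (Nat.card (ball S m) : ℝ) / y ^ m :=
        Finset.sum_nonneg fun m _ => hnn m
      have h7 : 0 < y ^ n := by positivity
      nlinarith

end Pool.Agent.L7h22.GR
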