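import Pool.Agent.L7h54.GR.Stm

/-!
Project GR (MP_646035_al), part GEN (helper22): the ten elements generate the group.
-/

namespace Pool.Agent.L7h22.GR

open Finset Pool.Agent.L7h54.GR
open scoped symmDiff

theorem card_gen (k : ℕ) : (gen k).card ≤ 10 := by
  unfold gen
  refine (card_union_le _ _).trans ?_
  have h1 : ((univ : Finset (Bool × Bool)).image (fun p => up p.1 p.2) ∪
    (univ : Finset (Bool × Bool)).image (fun p => lo k p.1 p.2)).card ≤ 4 + 4 := by
    refine (card_union_le _ _).trans (Nat.add_le_add ?_ ?_) <;>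
      exact card_image_le.trans (by simp)
  have h2 : ({th, tq} : Finset LL).card ≤ 2 := card_le_two
  omega

theorem sd_empty (s : Finset ℤ) : s ∆ ∅ = s := symmDiff_bot s

theorem zp (n : ℤ) : (⟨∅, ∅, ∅, 1⟩ : LL) ^ n = ⟨∅, ∅, ∅, n⟩ := by
  have key : ∀ n : ℕ, (⟨∅, ∅, ∅, 1⟩ : LL) ^ n = ⟨∅, ∅, ∅, n⟩ := by
    intro n
    induction n with
    | zero => rfl
    | succ n ih =>
      rw [pow_succ, ih]
      ext1 <;> simp
  cases n with
  | ofNat n =>
    rw [Int.ofNat_eq_natCast, zpow_natCast, key]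
  | negSucc n =>
    rw [zpow_negSucc, key]
    ext1 <;> simp [Int.negSucc_eq]

theorem s_GEN : S_GEN := by
  intro k
  refine ⟨?_, card_gen k⟩
  rw [eq_top_iff]
  set H := Subgroup.closure (gen k : Set LL) with hH
  have hg : ∀ g ∈ gen k, g ∈ H := fun g h => Subgroup.subset_closure h
  have ht1 : (⟨∅, ∅, ∅, 1⟩ : LL) ∈ H := by
    refine hg _ ?_
    simp only [gen, mem_union, mem_image, mem_univ, true_and]
    exact Or.inl (Or.inr ⟨(false, false), by simp [lo]⟩)
  have hup : (⟨{0}, ∅, ∅, 1⟩ : LL) ∈ H := by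
    refine hg _ ?_
    simp only [gen, mem_union, mem_image, mem_univ, true_and]
    exact Or.inl (Or.inl ⟨(false, false), by simp [up]⟩)
  have hth : (⟨∅, {0}, ∅, 0⟩ : LL) ∈ H := hg _ (by simp [gen, th])
  have htq : (⟨∅, ∅, {0}, 0⟩ : LL) ∈ H := hg _ (by simp [gen, tq])
  have hm : ∀ n : ℤ, (⟨∅, ∅, ∅, n⟩ : LL) ∈ H := fun n => by
    rw [← zp n]; exact H.zpow_mem ht1 n
  have htc : (⟨{0}, ∅, ∅, 0⟩ : LL) ∈ H := by
    have := H.mul_mem hup (hm (-1))
    convert this using 1
    ext1 <;> simp [sd_empty]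
  have hc1 : ∀ n : ℤ, (⟨{n}, ∅, ∅, 0⟩ : LL) ∈ H := fun n => by
    have := H.mul_mem (H.mul_mem (hm n) htc) (hm (-n))
    convert this using 1
    ext1 <;> simp
  have hh1 : ∀ n : ℤ, (⟨∅, {n}, ∅, 0⟩ : LL) ∈ H := fun n => by
    have := H.mul_mem (H.mul_mem (hm n) hth) (hm (-n))
    convert this using 1
    ext1 <;> simp
  have hq1 : ∀ n : ℤ, (⟨∅, ∅, {n}, 0⟩ : LL) ∈ H := fun n => by
    have := H.mul_mem (H.mul_mem (hm n) htq) (hm (-n))
    convert this using 1
    ext1 <;> simp
  have hsd : ∀ (a : ℤ) (s : Finset ℤ), a ∉ s → insert a s = {a} ∆ s := by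
    intro a s ha
    ext y
    simp only [mem_insert, mem_symmDiff, mem_singleton]
    constructor
    · rintro (rfl | h)
      · exact Or.inl ⟨rfl, ha⟩
      · exact Or.inr ⟨h, fun e => ha (e ▸ h)⟩
    · rintro (⟨h, -⟩ | ⟨h, -⟩)
      · exact Or.inl h
      · exact Or.inr h
  have hc : ∀ s : Finset ℤ, (⟨s, ∅, ∅, 0⟩ : LL) ∈ H := fun s => by
    induction s using Finset.induction_on with
    | empty => exact H.one_mem
    | insert a s ha ih =>
      have := H.mul_mem (hc1 a) ih
      convert this using 1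
      ext1
      · rw [hsd a s ha]; simp
      all_goals simp
  have hh : ∀ s : Finset ℤ, (⟨∅, s, ∅, 0⟩ : LL) ∈ H := fun s => by
    induction s using Finset.induction_on with
    | empty => exact H.one_mem
    | insert a s ha ih =>
      have := H.mul_mem (hh1 a) ih
      convert this using 1
      ext1
      · simp
      · rw [hsd a s ha]; simp
      all_goals simp
  have hq : ∀ s : Finset ℤ, (⟨∅, ∅, s, 0⟩ : LL) ∈ H := fun s => by
    induction s using Finset.induction_on with
    | empty => exact H.one_mem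
    | insert a s ha ih =>
      have := H.mul_mem (hq1 a) ih
      convert this using 1
      ext1
      · simp
      · simp
      · rw [hsd a s ha]; simp
      · simp
  intro g _
  have := H.mul_mem (H.mul_mem (H.mul_mem (hc g.c) (hh g.h)) (hq g.q)) (hm g.m)
  convert this using 1
  ext1 <;> simp [sd_empty]

end Pool.Agent.L7h22.GR
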