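import Pool.Agent.L7h54.GR.Stm

set_option autoImplicit false

/-!
# Project GR: finite energy
-/

namespace Pool.Agent.L7h22.GR

open Finset Pool.Agent.L7h54.GR

theorem r_le {ρ : ℝ} (h1 : ρ < 1) (x y : Bool) : r ρ x y ≤ 1 := by
  unfold r; split <;> linarith

theorem r_ge {ρ : ℝ} (h1 : ρ < 1) (x y : Bool) : ρ ≤ r ρ x y := by
  unfold r; split <;> linarith

theorem r_pos {ρ : ℝ} (h0 : 0 < ρ) (x y : Bool) : 0 < r ρ x y := by
  unfold r; split <;> linarith

theorem deg_sum {V B : Type} [Fintype V] [DecidableEq V] [Fintype B] (a : B → V) (S : Finset V) :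
    ∑ e : B, (if a e ∈ S then 1 else 0) = ∑ v ∈ S, (univ.filter (fun e => a e = v)).card := by
  rw [← Finset.card_filter]
  rw [Finset.card_eq_sum_card_fiberwise (f := a) (t := S) (fun e he => by simpa using he)]
  refine Finset.sum_congr rfl fun v hv => ?_
  congr 1
  ext e
  simp only [mem_filter, mem_univ, true_and, and_iff_right_iff_imp]
  rintro rfl
  exact hv

theorem energy {V B : Type} [Fintype V] [DecidableEq V] [Fintype B] (a b : B → V) {ρ : ℝ}
    {n : ℕ} (h0 : 0 < ρ) (h1 : ρ < 1) (S : Finset V) (hS : S.card ≤ n)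
    (hdeg : ∀ v : V, (univ.filter (fun e => a e = v)).card +
      (univ.filter (fun e => b e = v)).card ≤ 4) (s σ : V → Bool) (h : ∀ v ∉ S, σ v = s v) :
    ρ ^ (4 * n) * ∏ e : B, r ρ (s (a e)) (s (b e)) ≤ ∏ e : B, r ρ (σ (a e)) (σ (b e)) := by
  set k : B → ℕ := fun e => (if a e ∈ S then 1 else 0) + (if b e ∈ S then 1 else 0) with hk
  have hsum : ∑ e, k e ≤ 4 * n := by
    simp only [hk, Finset.sum_add_distrib, deg_sum]
    rw [← Finset.sum_add_distrib]
    calc _ ≤ ∑ _v ∈ S, 4 := Finset.sum_le_sum fun v _ => hdeg v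
      _ = 4 * S.card := by simp [mul_comm]
      _ ≤ 4 * n := Nat.mul_le_mul_left _ hS
  have h2 : ρ ^ (4 * n) ≤ ∏ e, ρ ^ k e := by
    rw [Finset.prod_pow_eq_pow_sum]
    exact pow_le_pow_of_le_one h0.le h1.le hsum
  have hpos : 0 ≤ ∏ e : B, r ρ (s (a e)) (s (b e)) := Finset.prod_nonneg fun e _ => (r_pos h0 _ _).le
  refine (mul_le_mul_of_nonneg_right h2 hpos).trans ?_
  rw [← Finset.prod_mul_distrib]
  refine Finset.prod_le_prod (fun e _ => mul_nonneg (pow_nonneg h0.le _) (r_pos h0 _ _).le)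
    fun e _ => ?_
  by_cases hke : k e = 0
  · simp only [hk, Nat.add_eq_zero_iff, ite_eq_right_iff, one_ne_zero, imp_false] at hke
    rw [show k e = 0 by simp [hk, hke.1, hke.2], pow_zero, one_mul, h _ hke.1, h _ hke.2]
  · calc ρ ^ k e * r ρ (s (a e)) (s (b e)) ≤ ρ ^ 1 * 1 :=
          mul_le_mul (pow_le_pow_of_le_one h0.le h1.le (Nat.one_le_iff_ne_zero.2 hke))
            (r_le h1 _ _) (r_pos h0 _ _).le (by positivity)
      _ ≤ _ := by rw [pow_one, mul_one]; exact r_ge h1 _ _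

/-- One block. -/
theorem block {V : Type} [Fintype V] [DecidableEq V] (s : V → Bool) (S : Finset V) {n : ℕ}
    (hS : S.card ≤ n) {κ c₀ : ℝ} (hc1 : c₀ ≤ 1) (F : (V → Bool) → ℝ)
    (hF0 : ∀ σ, 0 ≤ F σ)
    (hF : ∀ σ, κ * F σ ≤ F fun v => if v ∈ S then !(s v) else σ v) :
    ∑ σ : V → Bool, F σ * (if ∀ v ∈ S, σ v ≠ s v then c₀ else 1) ≤
      (1 - (1 - c₀) * (κ / 2 ^ n)) * ∑ σ : V → Bool, F σ := by
  set A : Finset (V → Bool) := univ.filter (fun σ => ∀ v ∈ S, σ v ≠ s v) with hA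
  set pr : (V → Bool) → (V → Bool) := fun σ v => if v ∈ S then !(s v) else σ v with hpr
  have h1 : κ * ∑ σ : V → Bool, F σ ≤ 2 ^ n * ∑ σ ∈ A, F σ := by
    rw [Finset.mul_sum]
    refine (Finset.sum_le_sum fun σ _ => hF σ).trans ?_
    have hinj : Set.InjOn (fun σ : V → Bool => (pr σ, fun v : S => σ v))
        ((univ : Finset (V → Bool)) : Set (V → Bool)) := by
      intro σ _ σ' _ h
      funext v
      by_cases hv : v ∈ S
      · have := congrFun (congrArg Prod.snd h) ⟨v, hv⟩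
        exact this
      · have h2 := congrFun (congrArg Prod.fst h) v
        simpa [hpr, hv] using h2
    have h2 : ∑ σ : V → Bool, F (pr σ) =
        ∑ x ∈ (univ : Finset (V → Bool)).image (fun σ => (pr σ, fun v : S => σ v)), F x.1 := by
      rw [Finset.sum_image hinj]
    have h3 : (univ : Finset (V → Bool)).image (fun σ => (pr σ, fun v : S => σ v)) ⊆
        A ×ˢ (univ : Finset (S → Bool)) := by
      intro x hx
      rw [mem_image] at hx
      obtain ⟨σ, _, rfl⟩ := hx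
      rw [mem_product]
      refine ⟨?_, mem_univ _⟩
      rw [hA, mem_filter]
      refine ⟨mem_univ _, fun v hv => ?_⟩
      simp [hpr, hv]
    have h4 : ∑ x ∈ A ×ˢ (univ : Finset (S → Bool)), F x.1 = 2 ^ S.card * ∑ σ ∈ A, F σ := by
      rw [Finset.sum_product]
      simp only [Finset.sum_const, Finset.card_univ, nsmul_eq_mul]
      rw [← Finset.mul_sum]
      congr 1
      simp
    have h5 : ∑ σ : V → Bool, F (pr σ) ≤ 2 ^ S.card * ∑ σ ∈ A, F σ := by
      rw [h2, ← h4]
      exact Finset.sum_le_sum_of_subset_of_nonneg h3 fun x _ _ => hF0 _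
    refine h5.trans ?_
    refine mul_le_mul_of_nonneg_right ?_ (Finset.sum_nonneg fun σ _ => hF0 σ)
    exact pow_le_pow_right₀ (by norm_num) hS
  have h2 : ∑ σ : V → Bool, F σ * (if ∀ v ∈ S, σ v ≠ s v then c₀ else 1) =
      (∑ σ : V → Bool, F σ) - (1 - c₀) * ∑ σ ∈ A, F σ := by
    rw [hA, Finset.sum_filter, Finset.mul_sum, ← Finset.sum_sub_distrib]
    refine Finset.sum_congr rfl fun σ _ => ?_
    split <;> ring
  rw [h2]
  have h3 : κ / 2 ^ n * ∑ σ : V → Bool, F σ ≤ ∑ σ ∈ A, F σ := by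
    rw [div_mul_eq_mul_div, div_le_iff₀ (by positivity)]
    linarith
  have h4 := mul_le_mul_of_nonneg_left h3 (by linarith : 0 ≤ 1 - c₀)
  linarith

theorem s_OUT : S_OUT := by
  intro V B _ _ _ a b ρ c₀ n R Vi h0 h1 hc0 hc1 hdis hcard hdeg
  have hρ : ρ ^ (4 * n) ≤ 1 := pow_le_one₀ h0.le h1.le
  have hq0 : 0 ≤ 1 - (1 - c₀) * (ρ ^ (4 * n) / 2 ^ n) := by
    have h2 : ρ ^ (4 * n) / 2 ^ n ≤ 1 := by
      rw [div_le_one (by positivity)]
      exact hρ.trans (one_le_pow₀ (by norm_num))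
    have h3 : 0 ≤ ρ ^ (4 * n) / 2 ^ n := by positivity
    nlinarith
  rw [Finset.mul_sum]
  refine Finset.sum_le_sum fun s _ => ?_
  -- fix `s`
  set u : (V → Bool) → ℝ := fun σ => ∏ e : B, r ρ (σ (a e)) (σ (b e)) with hu
  have hu0 : ∀ σ, 0 ≤ u σ := fun σ => Finset.prod_nonneg fun e _ => (r_pos h0 _ _).le
  have key : ∀ R' ≤ R, ∑ σ : V → Bool, u σ * ∏ i ∈ range R',
      (if ∀ v ∈ Vi i, σ v ≠ s v then c₀ else 1) ≤
      (1 - (1 - c₀) * (ρ ^ (4 * n) / 2 ^ n)) ^ R' * ∑ σ : V → Bool, u σ := by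
    intro R'
    induction R' with
    | zero => intro _; simp
    | succ j ih =>
      intro hj
      have ih' := ih (by omega)
      have hjR : j < R := by omega
      have h2 := block s (Vi j) (hcard j hjR) (κ := ρ ^ (4 * n)) hc1
        (fun σ => u σ * ∏ i ∈ range j, (if ∀ v ∈ Vi i, σ v ≠ s v then c₀ else 1))
        (fun σ => mul_nonneg (hu0 σ) (Finset.prod_nonneg fun i _ => by
          split
          · exact hc0
          · exact zero_le_one)) (fun σ => ?_)
      · have e1 : ∑ σ : V → Bool, u σ * ∏ i ∈ range (j + 1),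
            (if ∀ v ∈ Vi i, σ v ≠ s v then c₀ else 1) =
            ∑ σ : V → Bool, (u σ * ∏ i ∈ range j, (if ∀ v ∈ Vi i, σ v ≠ s v then c₀ else 1)) *
              (if ∀ v ∈ Vi j, σ v ≠ s v then c₀ else 1) := by
          refine Finset.sum_congr rfl fun σ _ => ?_
          rw [Finset.prod_range_succ, mul_assoc]
        rw [e1, pow_succ', mul_assoc]
        exact h2.trans (mul_le_mul_of_nonneg_left ih' hq0)
      · beta_reduce
        have h3 := energy a b h0 h1 (Vi j) (hcard j hjR) hdeg σ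
          (fun v => if v ∈ Vi j then !(s v) else σ v) fun v hv => by simp [hv]
        have h4 : ∀ i ∈ range j, (if ∀ v ∈ Vi i, (if v ∈ Vi j then !(s v) else σ v) ≠ s v
            then c₀ else 1) = (if ∀ v ∈ Vi i, σ v ≠ s v then c₀ else 1) := by
          intro i hi
          rw [mem_range] at hi
          have hd := hdis i (by omega) j hjR (by omega)
          have h5 : (∀ v ∈ Vi i, (if v ∈ Vi j then !(s v) else σ v) ≠ s v) ↔
              ∀ v ∈ Vi i, σ v ≠ s v := by
            refine forall₂_congr fun v hv => ?_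
            rw [if_neg (Finset.disjoint_left.1 hd hv)]
          simp only [h5]
        rw [Finset.prod_congr rfl h4, ← mul_assoc]
        refine mul_le_mul_of_nonneg_right h3 (Finset.prod_nonneg fun i _ => ?_)
        split
        · exact hc0
        · exact zero_le_one
  have e2 : ∀ σ : V → Bool, c₀ ^ ((range R).filter (fun i => ∀ v ∈ Vi i, σ v ≠ s v)).card =
      ∏ i ∈ range R, (if ∀ v ∈ Vi i, σ v ≠ s v then c₀ else 1) := by
    intro σ
    rw [Finset.prod_ite, Finset.prod_const, Finset.prod_const_one, mul_one]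
  have hs0 : 0 ≤ ∏ e : B, r ρ (s (a e)) (s (b e)) := hu0 s
  have e3 : ∀ σ : V → Bool, (∏ e : B, r ρ (s (a e)) (s (b e)) * r ρ (σ (a e)) (σ (b e))) =
      (∏ e : B, r ρ (s (a e)) (s (b e))) * u σ := fun σ => Finset.prod_mul_distrib
  simp only [e2, e3, mul_assoc]
  rw [← Finset.mul_sum, ← Finset.mul_sum]
  have h5 := mul_le_mul_of_nonneg_left (key R le_rfl) hs0
  linarith

end Pool.Agent.L7h22.GR
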